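import Pool.Agent.XDE.Lift
import Pool.Agent.XDA.Core
import Pool.Agent.XD.Rank
import Pool.Agent.CDep.Assembly

/-!
# The count for a family of isolated entries
-/

set_option autoImplicit false

namespace Pool.XDE

open Finset Pool.XD Pool.XDA Pool.XDS Pool.CD Pool.CDep Pool.Agent.Helper87.D3
  Pool.Agent.Helper41.CD

/-- **the count** for isolated entries `(R i, Q i)` -/
theorem count_iso {K : Type} [Field K] {T S w w0 k g : ℕ} {L W : Type} [Fintype L]
    [DecidableEq L] [Fintype W] [DecidableEq W] (ty : L → Bool) (Sw : W → Finset L)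
    {r E LU LV : ℕ} {HU HV : ℝ} (hr : r ≤ LU)
    (hcU : ∀ s, ((Sw s).filter fun l => ty l = true).card = r)
    (hcV : ∀ s, ((Sw s).filter fun l => ty l = false).card = E)
    (hHU : 1 ≤ HU) (hHV : 1 ≤ HV) (h1U : 1 ≤ nU ty) (h1V : 1 ≤ nV ty)
    (hU : HU * LU ≤ nU ty + LU - 1)
    (hV' : (nV ty : ℝ) + LV ≤ HV * (LV + 1))
    (f : Fin T → Fin S → MvPolynomial (Fin g × L) K) (hf : ∀ i j, f i j ∈ Cls w0 w S k)
    (hS : 1 ≤ S) (hw : 1 ≤ w) (hw0 : 1 ≤ w0)
    {I : Type} [Fintype I] [DecidableEq I] (R : I → Fin g → Box ty LU LV)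
    (Q : I → Fin g → Box ty (LU - r) (LV + E)) (wd : I → Fin g → W)
    (hsup : ∀ i i', Adm (cty ty g) (glu fun j => (R i j).1) (glu fun j => (Q i' j).1) →
      MvPolynomial.coeff (gap (cty ty g) (glu fun j => (R i j).1) (glu fun j => (Q i' j).1))
        (∑ i, ∏ j, f i j) ≠ 0 → ∃ s, cmon Sw s ≤
          gap (cty ty g) (glu fun j => (R i j).1) (glu fun j => (Q i' j).1))
    (h1 : ∀ i i' (s : Fin g → W), Adm (cty ty g) (glu fun j => (R i j).1)
      (glu fun j => (Q i' j).1) → gap (cty ty g) (glu fun j => (R i j).1)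
        (glu fun j => (Q i' j).1) = cmon Sw s → i = i')
    (h2 : ∀ i, Adm (cty ty g) (glu fun j => (R i j).1) (glu fun j => (Q i j).1) ∧
        gap (cty ty g) (glu fun j => (R i j).1) (glu fun j => (Q i j).1) = cmon Sw (wd i))
    (h3 : ∀ i, MvPolynomial.coeff (cmon Sw (wd i)) (∑ i, ∏ j, f i j) ≠ 0)
    {X Y : ℕ → ℝ} (hX : ∀ i, 0 < X i) (hY : ∀ i, 0 < Y i) (hX0 : X 0 = 1) (hY0 : Y 0 = 1)
    (hnum : ∀ i ≤ 2 * k, NumD (g * (r + E)) (S * ((g * (r + E) : ℕ) + 1) ^ (8 * (w0 + w) + 16))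
      HU HV (X i) (Y i) (X (i + 1)) (Y (i + 1))) :
    (Fintype.card I : ℝ) * HU ^ (g * r) ≤ ((r + 1) * (E + 1) : ℝ) ^ g *
      ((T * (((g * (r + E) : ℕ) + 1 : ℝ) ^ 16 * (X (2 * k + 1) ^ (g * r) *
        Y (2 * k + 1) ^ (g * E)))) *
          ((nU ty).multichoose LU * (nV ty).multichoose LV : ℕ) ^ g) := by
  classical
  obtain ⟨f', hf', hdet⟩ := Pool.XDE.exists_lift f hf ty Sw hr hcU hcV R Q wd hsup h1 h2 h3
  have hHU0 : 0 < HU := by linarith
  have hHV0 : 0 < HV := by linarith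
  -- the machine
  obtain ⟨SU, SV, hSU, hSV⟩ := exists_sub (cty ty g) (K := LField K)
  have hfV := filt_VV (cty ty g) (K := LField K)
  have hfU := filt_UU (cty ty g) (K := LField K)
  obtain ⟨Wp, hWp, hmach⟩ := level_machine (σ := Fin g × L) (K := LField K)
    (B := MvPolynomial (Fin g × L) (LField K))
    (Pool.CD.cost_Nu hfV hfU hHV0.le hHU0.le) (Pool.CD.big_Bi hfV hfU) hHU0 hHV0
    (Pool.CD.leaf_Bi hfV hfU HV HU) SU SV
    (fun a ha b hb => by
      have h1 := Pool.CD.Nu.ofMul (V := VV (cty ty g) (LField K)) (U := UU (cty ty g) (LField K))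
        (hv := HV) (hu := HU) ((hSU a).1 ha) ((hSV b).1 hb)
      rwa [pow_zero, pow_zero, mul_one] at h1)
    (PhiX (cty ty g)) (PhiX_mem _) (PhiX_zero _)
    (fun c p hp => by
      obtain ⟨α, hα, β, hβ, h1⟩ := PhiX_one (cty ty g) c p hp
      exact ⟨α, (hSU α).2 hα, β, (hSV β).2 hβ, h1⟩)
    (d := g * (r + E)) hw0 hw hS hX hY hX0 hY0 hnum f' hf'
  obtain ⟨c, hc⟩ := exists_nat_mul_eval (vpi_ne_zero K) Wp hWp
  have hNu := hmach (fun l => (c l : LField K) * vpi K) hc (g * r) (g * E) (by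
    rw [Nat.mul_add])
  -- the rank
  set P := cf (g * r) (g * E) (PhiX (cty ty g) (fun l => (c l : LField K) * vpi K)
    (∑ i, ∏ j, f' i j)) with hP
  have hrank1 := rank_cM_le ty (g := g) (E := E) hHU hHV hr h1U h1V hU hV' P hNu
  have hrank2 : Fintype.card I ≤ (cM ty P LU LV (LU - r) (LV + E)).rank := by
    set e := Fintype.equivFin I with he
    refine le_rank_of_minor (r := Fintype.card I) _ (fun i => R (e.symm i))
      (fun i => Q (e.symm i)) ?_
    have h1 := hdet c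
    have h2 : ((cM ty P LU LV (LU - r) (LV + E)).submatrix (fun i => R (e.symm i))
        (fun i => Q (e.symm i))) = (Matrix.of fun i i' : I => cM ty P LU LV (LU - r) (LV + E)
          (R i) (Q i')).submatrix e.symm e.symm := rfl
    rw [h2, Matrix.det_submatrix_equiv_self]
    exact h1
  refine le_trans (mul_le_mul_of_nonneg_right (Nat.cast_le.2 hrank2) (by positivity)) ?_
  exact hrank1

end Pool.XDE
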