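import Pool.Agent.XDS.Test

/-!
# Required letters
-/

set_option autoImplicit false

namespace Pool.XDE

open Finset MvPolynomial Pool.SatDet Pool.XDA Pool.XD Pool.XDS Pool.Agent.Helper41.CD
  Pool.Agent.Helper59.CDT

variable {n d : ℕ} {W L : Type} [Fintype L] {S : W → Finset L} {F : Type} [Field F]

open Classical in
/-- the free clauses and the clauses of the letters in `B` -/
noncomputable def UB (G : Gad n d S) (B : Set L) : Finset (Clause n (d + 1)) :=
  univ.filter fun C => C ∈ G.Z ∨ ∃ x, x ∈ B ∧ (∃ t, x ∈ S t) ∧ C = G.lt x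

theorem mem_UB (G : Gad n d S) (B : Set L) (C : Clause n (d + 1)) :
    C ∈ UB G B ↔ C ∈ G.Z ∨ ∃ x, x ∈ B ∧ (∃ t, x ∈ S t) ∧ C = G.lt x := by
  classical
  rw [UB, mem_filter]
  simp only [mem_univ, true_and]

theorem lt_mem_UB (G : Gad n d S) {B : Set L} {x : L} (h : G.lt x ∈ UB G B) : x ∈ B := by
  rcases (mem_UB G B _).1 h with h1 | ⟨y, h1, -, h2⟩
  · exact absurd h1 (G.notZ x)
  · rw [G.inj h2]
    exact h1

/-- an input without a word is unsatisfiable -/
theorem unsat_UB (G : Gad n d S) {B : Set L} (h : ∀ t, ∃ x ∈ S t, x ∉ B) :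
    ¬ SatP n (d + 1) (UB G B) := by
  intro hs
  obtain ⟨t, ht⟩ := G.main _ hs (fun C hC => by
    rcases (mem_UB G B _).1 hC with h1 | ⟨y, -, h1, h2⟩
    · exact Or.inl h1
    · exact Or.inr ⟨y, h1, h2⟩)
  obtain ⟨x, hx, hxB⟩ := h t
  exact hxB (lt_mem_UB G (ht x hx))

/-- a monomial of the polynomial in the letters with letters in `B` -/
theorem rst_ne_zero (G : Gad n d S) {f : MvPolynomial (Clause n (d + 1)) F} {B : Set L}
    {m : L →₀ ℕ} (hm : m ∈ (tst G f).support) (hB : ∀ x, m x ≠ 0 → x ∈ B) :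
    rst (UB G B) f ≠ 0 := by
  classical
  obtain ⟨μ, hμ, hadm, rfl⟩ := (mem_support_tst G f m).1 hm
  intro h0
  rw [rst_eq] at h0
  have h2 := congrArg (coeff μ) h0
  rw [coeff_sum, coeff_zero, Finset.sum_eq_single μ] at h2
  · rw [coeff_monomial, if_pos rfl] at h2
    exact (mem_support_iff.1 hμ) h2
  · intro m' _ hne
    rw [coeff_monomial, if_neg hne]
  · intro h3
    refine absurd (mem_filter.2 ⟨hμ, fun C hC => ?_⟩) h3
    rw [mem_UB]
    rcases hadm C hC with h4 | ⟨x, h4, h5⟩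
    · exact Or.inl h4
    · refine Or.inr ⟨x, hB x ?_, h4, h5⟩
      rw [lx_apply, ← h5]
      exact Finsupp.mem_support_iff.1 hC

/-- the letters of the monomials occur at most once -/
theorem tst_le_one (G : Gad n d S) {f : MvPolynomial (Clause n (d + 1)) F}
    (hml : ∀ μ ∈ f.support, ∀ C, μ C ≤ 1) {m : L →₀ ℕ} (hm : m ∈ (tst G f).support) (x : L) :
    m x ≤ 1 := by
  obtain ⟨μ, hμ, -, rfl⟩ := (mem_support_tst G f m).1 hm
  exact hml μ hμ _

/-- a required letter occurs in every monomial -/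
theorem required (G : Gad n d S) {f : MvPolynomial (Clause n (d + 1)) F} {B : Set L} {x : L}
    (h0 : rst (UB G (B \ {x})) f = 0) {m : L →₀ ℕ} (hm : m ∈ (tst G f).support)
    (hB : ∀ y, m y ≠ 0 → y ∈ B) : m x ≠ 0 := by
  intro hx
  refine rst_ne_zero (B := B \ {x}) G hm (fun y hy => ⟨hB y hy, fun hyx => ?_⟩) h0
  rw [Set.mem_singleton_iff] at hyx
  rw [hyx] at hy
  exact hy hx

/-- the monomial of an accepted word with required letters -/
theorem word_mem (G : Gad n d S) {f : MvPolynomial (Clause n (d + 1)) F}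
    (hml : ∀ μ ∈ f.support, ∀ C, μ C ≤ 1) {t : W} (ht : rst (Uw G t) f ≠ 0)
    (hreq : ∀ x ∈ S t, ∃ B : Set L, (∀ y ∈ S t, y ∈ B) ∧ rst (UB G (B \ {x})) f = 0)
    {m : L →₀ ℕ} [DecidablePred fun x => x ∈ S t] (hm : ∀ x, m x = if x ∈ S t then 1 else 0) :
    m ∈ (tst G f).support := by
  classical
  have h1 : ∃ μ ∈ f.support, μ.support ⊆ Uw G t := by
    by_contra hcon
    push Not at hcon
    apply ht
    rw [rst_eq]
    exact sum_eq_zero fun μ hμ => absurd (mem_filter.1 hμ).2 (hcon μ (mem_filter.1 hμ).1)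
  obtain ⟨μ, hμ, h2⟩ := h1
  have hadm : ∀ C ∈ μ.support, adm G C := by
    intro C hC
    rcases (mem_filter.1 (h2 hC)).2 with h3 | ⟨l, hl, h3⟩
    · exact Or.inl h3
    · exact Or.inr ⟨l, ⟨t, hl⟩, h3⟩
  have hmem : ∀ l, lx G μ l ≠ 0 → l ∈ S t := by
    intro l hl
    rw [lx_apply] at hl
    rcases (mem_filter.1 (h2 (Finsupp.mem_support_iff.2 hl))).2 with h3 | ⟨l', hl', h3⟩
    · exact absurd h3 (G.notZ l)
    · rw [G.inj h3]
      exact hl'
  have hsup : lx G μ ∈ (tst G f).support := (mem_support_tst G f _).2 ⟨μ, hμ, hadm, rfl⟩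
  have hall : ∀ x ∈ S t, lx G μ x ≠ 0 := by
    intro x hx
    obtain ⟨B, hB, h0⟩ := hreq x hx
    exact required G h0 hsup fun y hy => hB y (hmem y hy)
  have heq : m = lx G μ := by
    ext x
    rw [hm]
    split_ifs with h3
    · have h4 := tst_le_one G hml hsup x
      have h5 := hall x h3
      omega
    · by_contra h4
      exact h3 (hmem x (Ne.symm h4))
  rw [heq]
  exact hsup

end Pool.XDE
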