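import Pool.Agent.XDE.Pairs
import Pool.Agent.XDE.Core
import Pool.Agent.XDE.Test
import Pool.Agent.XDS.Sat
import Pool.Agent.Helper59.CDT.Final

/-!
# Tests for `k`-SAT with two sided error: the core inequality
-/

set_option autoImplicit false

namespace Pool.XDE

open Finset Pool.XD Pool.XDA Pool.XDS Pool.SatDet Pool.Agent.Helper41.CD
  Pool.Agent.Helper59.CDT

theorem card_gS {g : ℕ} {W L : Type} [DecidableEq L] [Fintype L] (S : W → Finset L)
    (s : Fin g → W) : (gS S s).card = ∑ i, (S (s i)).card := by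
  rw [gS, card_filter, Fintype.sum_prod_type]
  refine sum_congr rfl fun i _ => ?_
  rw [← card_filter]
  congr 1
  ext y
  simp

/-- the input in which the letter `x` is required -/
def BX {L : Type} {g : ℕ} (ty : Fin g × L → Bool) (R Q : Fin g → L → ℕ) (x : Fin g × L) :
    Set (Fin g × L) :=
  if ty x = true then {y | ty y = true ∨ 1 ≤ Q y.1 y.2} \ {x}
  else {y | ty y = false ∨ 1 ≤ R y.1 y.2} \ {x}

/-- the arithmetic -/
theorem combine' {g kb r E : ℕ} {HU κ mU mU' mV card a : ℝ} (hHU : 0 < HU) (hmU' : 0 < mU')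
    (hmV : 0 < mV) (hκ : 0 ≤ κ) (ha : 0 < a)
    (h1 : a * ((2 : ℝ) ^ (g * kb) * (mU' * mV / 2) ^ g) ≤ card)
    (h3 : card * HU ^ (g * r) ≤ ((r + 1) * (E + 1) : ℝ) ^ g * (κ * (mU * mV) ^ g))
    (h4 : mU ≤ 2 * HU ^ r * mU') (h5 : 0 ≤ mU) :
    a * (2 : ℝ) ^ (g * kb) ≤ (4 * (r + 1) * (E + 1)) ^ g * κ := by
  have h := Pool.XDA.combine (g := g) (kb := kb) (r := r) (E := E) (HU := HU) (κ := κ / a)
    (mU := mU) (mU' := mU') (mV := mV) (Rk := card / a) (card := card / a) hHU hmU' hmV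
    (by positivity) (by
      rw [le_div_iff₀ ha]
      linarith) le_rfl (by
      rw [div_mul_eq_mul_div, div_le_iff₀ ha]
      refine h3.trans (le_of_eq ?_)
      field_simp) h4 h5
  calc a * (2 : ℝ) ^ (g * kb) ≤ a * ((4 * (r + 1) * (E + 1)) ^ g * (κ / a)) :=
        mul_le_mul_of_nonneg_left h ha.le
    _ = (4 * (r + 1) * (E + 1)) ^ g * κ := by
        field_simp

open Classical in
/-- **the core inequality** for random tests with two sided error -/
theorem sat_core {n d g kb l k T S w w0 : ℕ} {F : Type} [Field F] {HU HV : ℝ} {τ : ℕ → Bool}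
    (hkb : 1 ≤ kb) (hHU : 1 < HU) (hHV : 1 < HV) (hbU : Bal τ true HU)
    (hbV : Bal τ false HV)
    (hlU : 4 * ((kb + l : ℕ) : ℝ) ^ 2 * HU ≤ 2 ^ l) (hlV : 4 * ((kb + l : ℕ) : ℝ) ^ 2 * HV ≤ 2 ^ l)
    (G : Gad n d (gS (g := g) (ltS (k := kb) l)))
    {Ω : Type} [Fintype Ω] (pr : Ω → ℝ) (h0 : ∀ ω, 0 ≤ pr ω) (h1 : ∑ ω, pr ω = 1)
    (f : Ω → Fin T → Fin S → MvPolynomial (Clause n (d + 1)) F)
    (hf : ∀ ω i j, f ω i j ∈ Cls w0 w S k)
    (hS : 1 ≤ S) (hw : 1 ≤ w) (hw0 : 1 ≤ w0)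
    (hml : ∀ ω, ∀ μ ∈ (∑ i, ∏ j, f ω i j).support, ∀ c, μ c ≤ 1) {a b : ℝ} (ha : 0 < a)
    (hD : ((g * (kb + l) : ℕ) : ℝ) * b ≤ a / 2)
    (hno : ∀ U : Finset (Clause n (d + 1)), ¬ SatP n (d + 1) U →
      ∑ ω, (if rst U (∑ i, ∏ j, f ω i j) ≠ 0 then pr ω else 0) ≤ b)
    (hyes : ∀ s : Fin g → Fin kb → Bool,
      a ≤ ∑ ω, if rst (Uw G s) (∑ i, ∏ j, f ω i j) ≠ 0 then pr ω else 0)
    {X Y : ℕ → ℝ} (hX : ∀ i, 0 < X i) (hY : ∀ i, 0 < Y i) (hX0 : X 0 = 1) (hY0 : Y 0 = 1)
    (hnum : ∀ i ≤ 2 * k, NumD (g * (kb + l)) (S * ((g * (kb + l) : ℕ) + 1) ^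
      (8 * (w0 + w) + 16)) HU HV (X i) (Y i) (X (i + 1)) (Y (i + 1))) :
    ∃ r E : ℕ, r = cnt τ true 0 (kb + l) ∧ E = cnt τ false 0 (kb + l) ∧ r + E = kb + l ∧
      a / 2 * (2 : ℝ) ^ (g * kb) ≤ (4 * (r + 1) * (E + 1)) ^ g *
        (T * (((g * (kb + l) : ℕ) + 1 : ℝ) ^ 16 *
        (X (2 * k + 1) ^ (g * r) * Y (2 * k + 1) ^ (g * E)))) := by
  obtain ⟨r, hr⟩ : ∃ r, r = cnt τ true 0 (kb + l) := ⟨_, rfl⟩
  obtain ⟨E, hE⟩ : ∃ E, E = cnt τ false 0 (kb + l) := ⟨_, rfl⟩
  obtain ⟨h1U, h1V, hrE, LU, LV, hL1, hL2, hL3, hL4, hL5⟩ :=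
    exists_params hkb hHU hHV hbU hbV hlU hlV hr hE
  refine ⟨r, E, hr, hE, hrE, ?_⟩
  have hkl : (kb : ℝ) ^ 2 ≤ ((kb + l : ℕ) : ℝ) ^ 2 := by
    apply pow_le_pow_left₀ (Nat.cast_nonneg _)
    exact_mod_cast Nat.le_add_right kb l
  have hsU := ltS_sparse (k := kb) (l := l) τ true hHU.le hbU (le_trans (by gcongr) hlU)
  have hsV := ltS_sparse (k := kb) (l := l) τ false hHV.le hbV (le_trans (by gcongr) hlV)
  have hcU : ∀ s : Fin kb → Bool, ((ltS l s).filter fun x => lty τ x = true).card = r := fun s => by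
    rw [hr]; exact ltS_card τ true s
  have hcV : ∀ s : Fin kb → Bool, ((ltS l s).filter fun x => lty τ x = false).card = E := fun s => by
    rw [hE]; exact ltS_card τ false s
  obtain ⟨ty, hty⟩ : ∃ ty : Pool.XDA.Lt kb l → Bool, ty = lty τ := ⟨_, rfl⟩
  rw [← hty] at h1U h1V hL2 hL3 hL4 hL5 hsU hsV hcU hcV
  obtain ⟨P, R, Q, hcard, hiso, hgap, hUg, hVg, hin⟩ := exists_pairs (g := g)
    ty (ltS (k := kb) l) hL1 hcU hcV hHU.le hHV.le hL2 hL3 hsU hsV
  -- the number of the letters of a word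
  have hletters : ∀ s : Fin g → Fin kb → Bool, (gS (ltS l) s).card = g * (kb + l) := by
    intro s
    rw [card_gS]
    have e1 : ∀ i, (ltS l (s i)).card = kb + l := by
      intro i
      have e2 := card_filter_add_card_filter_not (s := ltS l (s i)) (fun x => ty x = true)
      have e3 : ((ltS l (s i)).filter fun x => ¬ ty x = true) =
          (ltS l (s i)).filter fun x => ty x = false := by
        apply filter_congr
        intro x _
        simp
      rw [e3, hcU, hcV] at e2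
      omega
    rw [sum_congr rfl fun i _ => e1 i, sum_const, card_univ, Fintype.card_fin, smul_eq_mul]
  -- the inputs
  set B : (Fin g → Fin kb → Bool) × (Fin g → Box ty (LU - r) LV) → Fin g × Pool.XDA.Lt kb l →
      Set (Fin g × Pool.XDA.Lt kb l) := fun p x =>
    BX (cty ty g) (fun i => (R p i).1) (fun i => (Q p i).1) x with hB
  have hunsat : ∀ p ∈ P, ∀ x ∈ gS (ltS l) p.1, ¬ SatP n (d + 1) (UB G (B p x)) := by
    intro p hp x hx
    apply unsat_UB
    intro t
    by_cases htp : t = p.1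
    · subst htp
      refine ⟨x, hx, ?_⟩
      simp only [hB, BX]
      split_ifs <;> exact fun h => h.2 rfl
    · simp only [hB, BX]
      split_ifs with hxty
      · have h2 : ¬ ∀ i, ∀ y ∈ ltS l (t i), ty y = false → 1 ≤ (Q p i).1 y :=
          fun h => htp (hVg p hp t h)
        push Not at h2
        obtain ⟨i, y, h3, h4, h5⟩ := h2
        refine ⟨(i, y), (mem_gS _ _ _).2 h3, fun h => ?_⟩
        rcases h.1 with h6 | h6
        · rw [cty, h4] at h6
          exact absurd h6 (by simp)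
        · exact absurd h6 (not_le.2 h5)
      · have h2 : ¬ ∀ i, ∀ y ∈ ltS l (t i), ty y = true → 1 ≤ (R p i).1 y :=
          fun h => htp (hUg p hp t h)
        push Not at h2
        obtain ⟨i, y, h3, h4, h5⟩ := h2
        refine ⟨(i, y), (mem_gS _ _ _).2 h3, fun h => ?_⟩
        rcases h.1 with h6 | h6
        · rw [cty, h4] at h6
          exact absurd h6 (by simp)
        · exact absurd h6 (not_le.2 h5)
  -- a good choice
  set good : Ω → P → Prop := fun ω p => rst (Uw G p.1.1) (∑ i, ∏ j, f ω i j) ≠ 0 ∧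
    ∀ x ∈ gS (ltS l) p.1.1, rst (UB G (B p.1 x)) (∑ i, ∏ j, f ω i j) = 0 with hgood
  have hprob : ∀ p : P, a / 2 ≤ ∑ ω, if good ω p then pr ω else 0 := by
    intro p
    have e1 : ∀ ω, (if rst (Uw G p.1.1) (∑ i, ∏ j, f ω i j) ≠ 0 then pr ω else 0) -
        ∑ x ∈ gS (ltS l) p.1.1, (if rst (UB G (B p.1 x)) (∑ i, ∏ j, f ω i j) ≠ 0 then pr ω else 0)
        ≤ if good ω p then pr ω else 0 := by
      intro ω
      have e2 : 0 ≤ ∑ x ∈ gS (ltS l) p.1.1,
          (if rst (UB G (B p.1 x)) (∑ i, ∏ j, f ω i j) ≠ 0 then pr ω else 0) :=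
        sum_nonneg fun x _ => by
          split_ifs
          · exact h0 ω
          · exact le_rfl
      by_cases h2 : rst (Uw G p.1.1) (∑ i, ∏ j, f ω i j) ≠ 0
      · by_cases h3 : ∀ x ∈ gS (ltS l) p.1.1, rst (UB G (B p.1 x)) (∑ i, ∏ j, f ω i j) = 0
        · rw [if_pos h2, if_pos ⟨h2, h3⟩]
          linarith
        · rw [if_pos h2, if_neg fun h => h3 h.2]
          push Not at h3
          obtain ⟨x, hx, hx2⟩ := h3
          have e3 := single_le_sum (f := fun x =>
            (if rst (UB G (B p.1 x)) (∑ i, ∏ j, f ω i j) ≠ 0 then pr ω else 0))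
            (fun y _ => by
              show (0 : ℝ) ≤ if rst (UB G (B p.1 y)) (∑ i, ∏ j, f ω i j) ≠ 0 then pr ω else 0
              split_ifs
              · exact h0 ω
              · exact le_rfl) hx
          simp only [if_pos hx2] at e3
          linarith
      · rw [if_neg h2, if_neg fun h => h2 h.1]
        linarith
    have e4 := sum_le_sum fun ω (_ : ω ∈ (univ : Finset Ω)) => e1 ω
    rw [sum_sub_distrib, sum_comm] at e4
    have e5 : ∑ x ∈ gS (ltS l) p.1.1, ∑ ω,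
        (if rst (UB G (B p.1 x)) (∑ i, ∏ j, f ω i j) ≠ 0 then pr ω else 0) ≤
        ((g * (kb + l) : ℕ) : ℝ) * b := by
      rw [← hletters p.1.1, ← nsmul_eq_mul, ← sum_const]
      exact sum_le_sum fun x hx => hno _ (hunsat p.1 p.2 x hx)
    have e6 := hyes p.1.1
    linarith
  obtain ⟨ω, hω⟩ := exists_many (W := P) pr h0 h1 good (a / 2) hprob
  rw [Fintype.card_coe] at hω
  -- the polynomial
  have hin' : ∀ (p : P), ∀ y ∈ gS (ltS l) p.1.1,
      (cty ty g y = true → 1 ≤ (R p.1 y.1).1 y.2) ∧ (cty ty g y = false → 1 ≤ (Q p.1 y.1).1 y.2) :=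
    fun p y hy => hin p.1 y.1 y.2 ((mem_gS _ _ _).1 hy)
  have hword : ∀ p : P, good ω p → ∀ x ∈ gS (ltS l) p.1.1, ∃ B' : Set (Fin g × Pool.XDA.Lt kb l),
      (∀ y ∈ gS (ltS l) p.1.1, y ∈ B') ∧ rst (UB G (B' \ {x})) (∑ i, ∏ j, f ω i j) = 0 := by
    intro p hp x hx
    have h2 := hp.2 x hx
    simp only [hB, BX] at h2
    split_ifs at h2 with hxty
    · refine ⟨_, fun y hy => ?_, h2⟩
      cases h3 : cty ty g y
      · exact Or.inr ((hin' p y hy).2 h3)
      · exact Or.inl h3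
    · refine ⟨_, fun y hy => ?_, h2⟩
      cases h3 : cty ty g y
      · exact Or.inl h3
      · exact Or.inr ((hin' p y hy).1 h3)
  have hcount := count_iso (I := {p : P // good ω p}) ty (ltS (k := kb) l) (r := r) (E := E)
    hL1 hcU hcV hHU.le hHV.le h1U h1V hL2 hL4 (fun i j => tst G (f ω i j))
    (fun i j => tst_cls G (hf ω i j)) hS hw hw0 (fun p => R p.1.1) (fun p => Q p.1.1)
    (fun p => p.1.1.1) ?_
    (fun p p' s hA hg => Subtype.ext (Subtype.ext (hiso p.1.1 p.1.2 p'.1.1 p'.1.2 s hA hg)))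
    (fun p => hgap p.1.1 p.1.2) ?_ hX hY hX0 hY0 (by rw [hrE]; exact hnum)
  · have hcI : (Fintype.card {p : P // good ω p} : ℝ) = ((univ.filter (good ω)).card : ℝ) := by
      rw [Fintype.card_subtype]
    rw [hcI, hrE] at hcount
    have hmU' : (0 : ℝ) < (nU ty).multichoose (LU - r) := by
      rw [Nat.multichoose_eq]
      exact_mod_cast Nat.choose_pos (by omega)
    have hmV : (0 : ℝ) < (nV ty).multichoose LV := by
      rw [Nat.multichoose_eq]
      exact_mod_cast Nat.choose_pos (by omega)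
    have hX1 := hX (2 * k + 1)
    have hY1 := hY (2 * k + 1)
    refine combine' (HU := HU) (mU := (nU ty).multichoose LU) (mU' := (nU ty).multichoose (LU - r))
      (mV := (nV ty).multichoose LV) (card := ((univ.filter (good ω)).card : ℝ)) (by linarith)
      hmU' hmV (by positivity) (by linarith) ?_ ?_ hL5 (Nat.cast_nonneg _)
    · refine le_trans ?_ hω
      apply mul_le_mul_of_nonneg_left _ (by linarith)
      refine le_trans (le_of_eq ?_) hcard
      rw [Fintype.card_fun, Fintype.card_fun, Fintype.card_bool, Fintype.card_fin,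
        Fintype.card_fin]
      push_cast
      rw [pow_mul']
    · refine hcount.trans (le_of_eq ?_)
      push_cast
      ring
  · intro p p' hA hne
    rw [← tst_sum_prod] at hne
    have hm := MvPolynomial.mem_support_iff.2 hne
    set m := gap (cty ty g) (glu fun j => (R p.1.1 j).1) (glu fun j => (Q p'.1.1 j).1) with hmdef
    have hap : ∀ x : Fin g × Pool.XDA.Lt kb l, m x = if cty ty g x then (R p.1.1 x.1).1 x.2 -
        (Q p'.1.1 x.1).1 x.2 else (Q p'.1.1 x.1).1 x.2 - (R p.1.1 x.1).1 x.2 := by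
      intro x
      rw [hmdef, gap_apply]
      rfl
    have hmU : ∀ x, m x ≠ 0 → cty ty g x = false ∨ 1 ≤ (R p.1.1 x.1).1 x.2 := by
      intro x hx
      rw [hap] at hx
      cases h3 : cty ty g x
      · exact Or.inl rfl
      · rw [h3, if_pos rfl] at hx
        right
        omega
    have hmV : ∀ x, m x ≠ 0 → cty ty g x = true ∨ 1 ≤ (Q p'.1.1 x.1).1 x.2 := by
      intro x hx
      rw [hap] at hx
      cases h3 : cty ty g x
      · rw [h3, if_neg (by simp)] at hx
        right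
        omega
      · exact Or.inl rfl
    -- the letters of type `false` of the word of the row
    have hreqV : ∀ x ∈ gS (ltS l) p.1.1.1, cty ty g x = false → m x ≠ 0 := by
      intro x hx hxty
      have h2 := p.2.2 x hx
      simp only [hB, BX] at h2
      rw [if_neg (by rw [hxty]; simp)] at h2
      exact required G h2 hm fun y hy => hmU y hy
    have hreqU : ∀ x ∈ gS (ltS l) p'.1.1.1, cty ty g x = true → m x ≠ 0 := by
      intro x hx hxty
      have h2 := p'.2.2 x hx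
      simp only [hB, BX] at h2
      rw [if_pos hxty] at h2
      exact required G h2 hm fun y hy => hmV y hy
    have hsame : p.1.1.1 = p'.1.1.1 := by
      refine hVg p'.1.1 p'.1.2 p.1.1.1 fun i y hy hyty => ?_
      have h2 := hreqV (i, y) ((mem_gS _ _ _).2 hy) hyty
      rcases hmV _ h2 with h3 | h3
      · rw [cty, hyty] at h3
        exact absurd h3 (by simp)
      · exact h3
    refine ⟨p.1.1.1, fun x => ?_⟩
    obtain ⟨i, y⟩ := x
    rw [cmon_ap]
    split_ifs with h2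
    · have h3 : (i, y) ∈ gS (ltS l) p.1.1.1 := (mem_gS _ _ _).2 h2
      have h4 : m (i, y) ≠ 0 := by
        cases h5 : cty ty g (i, y)
        · exact hreqV _ h3 h5
        · rw [hsame] at h3
          exact hreqU _ h3 h5
      exact Nat.one_le_iff_ne_zero.2 h4
    · exact Nat.zero_le _
  · intro p
    rw [← tst_sum_prod]
    apply MvPolynomial.mem_support_iff.1
    refine word_mem G (hml ω) p.2.1 (hword p.1 p.2) fun x => ?_
    obtain ⟨i, y⟩ := x
    rw [cmon_ap]
    by_cases h : y ∈ ltS (k := kb) l (p.1.1.1 i)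
    · rw [if_pos h, if_pos ((mem_gS _ _ (i, y)).2 h)]
    · rw [if_neg h, if_neg (fun h' => h ((mem_gS _ _ (i, y)).1 h'))]

end Pool.XDE
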