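import Pool.Agent.XDA.Num
import Pool.Agent.XDS.Num
import Pool.Agent.XDE.Sat

/-!
# Tests for `k`-SAT of constant depth with two sided error: exponential lower bounds over every field
-/

set_option autoImplicit false

namespace Pool.XDE

open Finset MvPolynomial Pool.SatDet Pool.XDA Pool.XD Pool.XDS Pool.CD Pool.CDep
  Pool.Agent.Helper41.CD Pool.Agent.Helper59.CDT

open Classical in
/-- **random tests of constant depth for `k`-SAT with two sided error** (`k = d + 1`); `l` is the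
level -/
theorem xde (d : ℕ) (hd : 2 ≤ d) : ∃ C : ℝ, 1 ≤ C ∧
    ∀ (F : Type) [Field F] (Ω : Type) [Fintype Ω] (l n m T S w w0 : ℕ) (a b : ℝ) (pr : Ω → ℝ)
      (f : Ω → Fin T → Fin S → MvPolynomial (Clause n (d + 1)) F),
      1 ≤ m → m ≤ n → 1 ≤ T → 2 ≤ S → 1 ≤ w → 1 ≤ w0 → 0 < a → a ≤ 1 → b * m ≤ a →
      (∀ ω, 0 ≤ pr ω) → ∑ ω, pr ω = 1 → (∀ ω i j, f ω i j ∈ Cls w0 w S l) →
      (∀ ω, ∀ m ∈ (∑ i, ∏ j, f ω i j).support, ∀ c, m c ≤ 1) →
      (∀ U : Finset (Clause n (d + 1)), ¬ SatP n (d + 1) U →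
        ∑ ω, (if rst U (∑ i, ∏ j, f ω i j) ≠ 0 then pr ω else 0) ≤ b) →
      (∀ U : Finset (Clause n (d + 1)), (∃! a : Fin n → Bool, ∀ c, c ∉ U → Sats a c) →
        a ≤ ∑ ω, if rst U (∑ i, ∏ j, f ω i j) ≠ 0 then pr ω else 0) →
      (m : ℝ) ≤ C * Real.log (2 * m * (T / a)) *
        (C * (Real.log S + (w + w0) * Real.log (2 * m))) ^
          (3 * (Nat.fib (2 * l + 4) - 2) + 1) := by
  obtain ⟨C1, hC1, hfin⟩ := xda_final
  obtain ⟨C2, hC2, hsc⟩ := num_scale C1 hC1 d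
  refine ⟨2 * C2, by linarith, ?_⟩
  intro F _ Ω _ k n m T S w w0 a b pr f hm hmn hT hS hw hw0 ha ha1 hb hpr hpr1 hf hml hno hyes
  have hTr : (1 : ℝ) ≤ T := by exact_mod_cast hT
  have hmr : (1 : ℝ) ≤ m := by exact_mod_cast hm
  have hTa : 1 ≤ (T : ℝ) / a := by
    rw [le_div_iff₀ ha]
    linarith
  have hτ : 1 ≤ (T : ℝ) / (a / 2) := by
    rw [le_div_iff₀ (by positivity)]
    linarith
  have key : (m : ℝ) ≤ C2 * Real.log (2 * m * (T / (a / 2))) *
        (C2 * (Real.log S + (w + w0) * Real.log (2 * m))) ^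
          (3 * (Nat.fib (2 * k + 4) - 2) + 1) := by
    refine hsc m S w w0 _ (T / (a / 2)) hm hτ hS hw hw0 fun hn' => ?_
    obtain ⟨θ, kb, l, X, Y, h0, h1, hkb, hlU, hlV, hX0, hY0, hX, hY, hnum, hlast⟩ :=
      hfin k ((m - d) / 4) (T / (a / 2)) S w w0 hτ hS hw hw0
    refine hlast fun g hg hgn => ?_
    have h1' : 0 < 1 - θ := by linarith
    obtain ⟨HU, hHU⟩ : ∃ H : ℝ, H = 2 ^ (1 / θ) := ⟨_, rfl⟩
    obtain ⟨HV, hHV⟩ : ∃ H : ℝ, H = 2 ^ (1 / (1 - θ)) := ⟨_, rfl⟩
    have hHU1 : 1 < HU := by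
      rw [hHU]
      exact Real.one_lt_rpow (by norm_num) (by positivity)
    have hHV1 : 1 < HV := by
      rw [hHV]
      exact Real.one_lt_rpow (by norm_num) (by positivity)
    obtain ⟨τ, hbU, hbV, hcU, hcV⟩ := exists_types h0 h1
    rw [← hHU] at hbU hcU hlU hnum ⊢
    rw [← hHV] at hbV hcV hlV hnum ⊢
    have hsize : 2 * (g * ((kb + l) * 2 ^ (l + 1))) + d ≤ n := by
      have e1 : 2 * (g * ((kb + l) * 2 ^ (l + 1))) = 4 * (g * ((kb + l) * 2 ^ l)) := by
        rw [pow_succ]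
        ring
      rw [e1]
      omega
    obtain ⟨G⟩ := exists_gad (g := g) (k := kb) (l := l) hd hg (by omega) hsize
    have hd' : g * (kb + l) ≤ (m - d) / 4 := by
      have h2 : 1 ≤ 2 ^ l := Nat.one_le_two_pow
      nlinarith [Nat.mul_le_mul_left (g * (kb + l)) h2]
    have hD : ((g * (kb + l) : ℕ) : ℝ) * b ≤ a / 2 := by
      rcases le_or_gt b 0 with h2 | h2
      · have : ((g * (kb + l) : ℕ) : ℝ) * b ≤ 0 :=
          mul_nonpos_of_nonneg_of_nonpos (Nat.cast_nonneg _) h2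
        linarith
      · have h3 : 2 * (g * (kb + l)) ≤ m := by omega
        have h4 : 2 * ((g * (kb + l) : ℕ) : ℝ) ≤ m := by exact_mod_cast h3
        have h5 := mul_le_mul_of_nonneg_right h4 h2.le
        linarith
    obtain ⟨r, E, hr, hE, hrE, hcard⟩ := Pool.XDE.sat_core hkb hHU1 hHV1 hbU hbV hlU hlV G pr hpr
      hpr1 f hf (by omega) hw hw0 hml ha hD hno (fun s => hyes _ (by
        obtain ⟨a, ha, hu⟩ := G.sat s
        refine ⟨a, fun c hc => ?_, fun b hb => hu b fun c hc => ?_⟩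
        · by_contra h
          exact hc (mem_filter.2 ⟨mem_univ _, ha c h⟩)
        · by_contra h
          exact hc (hb c fun h' => h (mem_filter.1 h').2))) hX hY hX0 hY0 (hnum _ hd')
    refine ⟨r, E, hrE, ?_, ?_, ?_⟩
    · rw [hr]
      exact hcU _
    · rw [hE]
      exact hcV _
    · have ha2 : 0 < a / 2 := by positivity
      rw [← mul_le_mul_iff_right₀ ha2]
      refine hcard.trans (le_of_eq ?_)
      field_simp
  have hw1 : (1 : ℝ) ≤ w := by exact_mod_cast hw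
  have hw01 : (1 : ℝ) ≤ w0 := by exact_mod_cast hw0
  have hl0 : 0 ≤ Real.log (2 * m) := Real.log_nonneg (by linarith)
  have hlS : 0 ≤ Real.log S := Real.log_natCast_nonneg S
  have hA : 0 ≤ Real.log S + (w + w0) * Real.log (2 * m) := by positivity
  have h2 : (2 : ℝ) ≤ 2 * m * (T / a) := by nlinarith
  have h3 : Real.log (2 * m * (T / (a / 2))) ≤ 2 * Real.log (2 * m * (T / a)) := by
    have e1 : 2 * (m : ℝ) * (T / (a / 2)) = 2 * (2 * m * (T / a)) := by
      field_simp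
    rw [e1, Real.log_mul (by norm_num) (by positivity)]
    have e2 : Real.log 2 ≤ Real.log (2 * m * (T / a)) := Real.log_le_log (by norm_num) h2
    linarith
  have h4 : 0 ≤ Real.log (2 * m * (T / (a / 2))) := by
    apply Real.log_nonneg
    nlinarith
  refine key.trans ?_
  apply mul_le_mul
  · calc C2 * Real.log (2 * m * (T / (a / 2))) ≤ C2 * (2 * Real.log (2 * m * (T / a))) :=
          mul_le_mul_of_nonneg_left h3 (by linarith)
      _ = 2 * C2 * Real.log (2 * m * (T / a)) := by ring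
  · apply pow_le_pow_left₀ (by positivity)
    apply mul_le_mul_of_nonneg_right _ hA
    linarith
  · positivity
  · have : 0 ≤ Real.log (2 * m * (T / a)) := Real.log_nonneg (by linarith)
    positivity

end Pool.XDE
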