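import Pool.Agent.XDS.Lift

/-!
# The lift of a test polynomial to characteristic zero, for the entries which occur
-/

set_option autoImplicit false
set_option linter.unusedVariables false

namespace Pool.XDE

open Finset Pool.XD Pool.XDA Pool.XDS Pool.CD Pool.CDep Pool.Agent.Helper87.D3
  Pool.Agent.Helper41.CD

/-- the lift: only the monomials at the entries of the matrix have to contain a word -/
theorem exists_lift {K : Type} [Field K] {T m w0 w S k : ℕ} {g : ℕ} {L W : Type} [Fintype L]
    [DecidableEq L] [Fintype W] [DecidableEq W]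
    (f : Fin T → Fin m → MvPolynomial (Fin g × L) K) (hf : ∀ i j, f i j ∈ Cls w0 w S k)
    (ty : L → Bool) (Sw : W → Finset L) {r E LU LV : ℕ} (hr : r ≤ LU)
    (hcU : ∀ s, ((Sw s).filter fun l => ty l = true).card = r)
    (hcV : ∀ s, ((Sw s).filter fun l => ty l = false).card = E)
    {I : Type} [Fintype I] [DecidableEq I] (R : I → Fin g → Box ty LU LV)
    (Q : I → Fin g → Box ty (LU - r) (LV + E)) (wd : I → Fin g → W)
    (hsup : ∀ i i', Adm (cty ty g) (glu fun j => (R i j).1) (glu fun j => (Q i' j).1) →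
      MvPolynomial.coeff (gap (cty ty g) (glu fun j => (R i j).1) (glu fun j => (Q i' j).1))
        (∑ i, ∏ j, f i j) ≠ 0 → ∃ s, cmon Sw s ≤
          gap (cty ty g) (glu fun j => (R i j).1) (glu fun j => (Q i' j).1))
    (h1 : ∀ i i' (s : Fin g → W), Adm (cty ty g) (glu fun j => (R i j).1)
      (glu fun j => (Q i' j).1) → gap (cty ty g) (glu fun j => (R i j).1)
        (glu fun j => (Q i' j).1) = cmon Sw s → i = i')
    (h2 : ∀ i, Adm (cty ty g) (glu fun j => (R i j).1) (glu fun j => (Q i j).1) ∧
        gap (cty ty g) (glu fun j => (R i j).1) (glu fun j => (Q i j).1) = cmon Sw (wd i))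
    (h3 : ∀ i, MvPolynomial.coeff (cmon Sw (wd i)) (∑ i, ∏ j, f i j) ≠ 0) :
    ∃ f' : Fin T → Fin m → MvPolynomial (Fin g × L) (LField K), (∀ i j, f' i j ∈ Cls w0 w S k) ∧
      ∀ c : Fin g × L → ℕ, (Matrix.of fun i i' : I =>
        cM ty (cf (g * r) (g * E) (PhiX (cty ty g) (fun l => (c l : LField K) * vpi K)
          (∑ i, ∏ j, f' i j))) LU LV (LU - r) (LV + E) (R i) (Q i')).det ≠ 0 := by
  classical
  -- the matrix over every ring
  let Mt : ∀ (A : Type) [CommRing A], (Fin g × L → A) → MvPolynomial (Fin g × L) A →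
      Matrix I I A := fun A _ c P => Matrix.of fun i i' =>
    ent (cty ty g) (cf (g * r) (g * E) (PhiX (cty ty g) c P))
      (glu fun j => (R i j).1) (glu fun j => (Q i' j).1)
  have hMt : ∀ (A B : Type) [CommRing A] [CommRing B] (ψ : A →+* B) (c : Fin g × L → A)
      (P : MvPolynomial (Fin g × L) A),
      Mt B (fun l => ψ (c l)) (MvPolynomial.map ψ P) = (Mt A c P).map ψ := by
    intro A B _ _ ψ c P
    ext i i'
    show ent (cty ty g) (cf (g * r) (g * E) (PhiX (cty ty g) (fun l => ψ (c l))
      (MvPolynomial.map ψ P))) (glu fun j => (R i j).1) (glu fun j => (Q i' j).1) =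
      ψ (ent (cty ty g) (cf (g * r) (g * E) (PhiX (cty ty g) c P))
        (glu fun j => (R i j).1) (glu fun j => (Q i' j).1))
    rw [← ent_map, ← cf_serMap, serMap_PhiX]
  -- over `K`
  have hK : (Mt K (fun _ => 0) (∑ i, ∏ j, f i j)).det ≠ 0 := by
    have hd : Mt K (fun _ => 0) (∑ i, ∏ j, f i j) =
        Matrix.diagonal fun i => MvPolynomial.coeff (cmon Sw (wd i)) (∑ i, ∏ j, f i j) := by
      ext i i'
      rw [Matrix.diagonal_apply]
      show ent (cty ty g) (cf (g * r) (g * E) (PhiX (cty ty g) (fun _ => 0) (∑ i, ∏ j, f i j)))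
        (glu fun j => (R i j).1) (glu fun j => (Q i' j).1) = _
      unfold ent
      by_cases hA : Adm (cty ty g) (glu fun j => (R i j).1) (glu fun j => (Q i' j).1)
      · have hU := sum_gap_U ty hr (R i) (Q i') hA
        have hV := sum_gap_V ty (R i) (Q i') hA
        rw [if_pos hA, coeff_cf_PhiX_zero, if_pos ⟨hU, hV⟩]
        split_ifs with hii
        · subst hii
          rw [(h2 i).2]
        · by_contra hne
          obtain ⟨s, hs⟩ := hsup i i' hA hne
          exact hii (h1 i i' s hA (eq_cmon ty Sw hcU hcV s _ hs hU hV))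
      · rw [if_neg hA, if_neg]
        rintro rfl
        exact hA (h2 i).1
    rw [hd, Matrix.det_diagonal]
    exact Finset.prod_ne_zero_iff.2 fun i _ => h3 i
  -- the lift
  choose G hG hGf using fun i j => cls_lift (proj K) (proj_surjective K) k (hf i j)
  refine ⟨fun i j => MvPolynomial.map (algebraMap (LRing K) (LField K)) (G i j),
    fun i j => cls_map _ k (hG i j), fun c => ?_⟩
  have h5 : (Mt (LRing K) (fun l => (c l : LRing K) * varpi K) (∑ i, ∏ j, G i j)).det ≠ 0 := by
    intro h0
    apply hK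
    have h6 : (fun _ : Fin g × L => (0 : K)) = fun l => proj K ((c l : LRing K) * varpi K) := by
      funext l
      rw [map_mul, proj_varpi, mul_zero]
    have h7 : (∑ i, ∏ j, f i j) = MvPolynomial.map (proj K) (∑ i, ∏ j, G i j) := by
      simp only [map_sum, map_prod, hGf]
    rw [h6, h7, hMt, ← RingHom.mapMatrix_apply, ← RingHom.map_det, h0, map_zero]
  have h8 : (∑ i, ∏ j, MvPolynomial.map (algebraMap (LRing K) (LField K)) (G i j)) =
      MvPolynomial.map (algebraMap (LRing K) (LField K)) (∑ i, ∏ j, G i j) := by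
    simp only [map_sum, map_prod]
  have h9 : (fun l : Fin g × L => (c l : LField K) * vpi K) =
      fun l => algebraMap (LRing K) (LField K) ((c l : LRing K) * varpi K) := by
    funext l
    rw [map_mul, map_natCast]
    rfl
  show (Mt (LField K) _ _).det ≠ 0
  rw [h8, h9, hMt, ← RingHom.mapMatrix_apply, ← RingHom.map_det]
  intro h0
  exact h5 (IsFractionRing.injective (LRing K) (LField K) (by rw [h0, map_zero]))

end Pool.XDE
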