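import Pool.Agent.XDA.Iso

/-!
# Pairs of a word and an exponent vector: rows and columns which determine the word
-/

set_option autoImplicit false

namespace Pool.XDE

open Finset Pool.XD Pool.XDA

variable {g : ℕ} {L W : Type} [Fintype L] [DecidableEq L] [Fintype W] [DecidableEq W]
  (ty : L → Bool) (S : W → Finset L)

open Classical in
/-- many pairs `p` of words and exponent vectors, with rows `R p` and columns `Q p`; the row and the
column of a pair contain only one word -/
theorem exists_pairs {LU LV r E : ℕ} {HU HV : ℝ} (hr : r ≤ LU)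
    (hcU : ∀ s, ((S s).filter fun l => ty l = true).card = r)
    (hcV : ∀ s, ((S s).filter fun l => ty l = false).card = E)
    (hHU : 1 ≤ HU) (hHV : 1 ≤ HV)
    (hU : HU * LU ≤ nU ty + LU - 1) (hV : HV * LV ≤ nV ty + LV - 1)
    (hsU : Sparse ty S true HU) (hsV : Sparse ty S false HV) :
    ∃ (P : Finset ((Fin g → W) × (Fin g → Box ty (LU - r) LV)))
      (R : (Fin g → W) × (Fin g → Box ty (LU - r) LV) → Fin g → Box ty LU LV)
      (Q : (Fin g → W) × (Fin g → Box ty (LU - r) LV) → Fin g → Box ty (LU - r) (LV + E)),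
      (Fintype.card (Fin g → W) : ℝ) *
        (((nU ty).multichoose (LU - r) * (nV ty).multichoose LV : ℕ) / 2 : ℝ) ^ g ≤ P.card ∧
      (∀ p ∈ P, ∀ p' ∈ P, ∀ s : Fin g → W,
        Adm (cty ty g) (glu fun j => (R p j).1) (glu fun j => (Q p' j).1) →
        gap (cty ty g) (glu fun j => (R p j).1) (glu fun j => (Q p' j).1) = cmon S s → p = p') ∧
      (∀ p ∈ P, Adm (cty ty g) (glu fun j => (R p j).1) (glu fun j => (Q p j).1) ∧
        gap (cty ty g) (glu fun j => (R p j).1) (glu fun j => (Q p j).1) = cmon S p.1) ∧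
      (∀ p ∈ P, ∀ s : Fin g → W,
        (∀ i, ∀ l ∈ S (s i), ty l = true → 1 ≤ (R p i).1 l) → s = p.1) ∧
      (∀ p ∈ P, ∀ s : Fin g → W,
        (∀ i, ∀ l ∈ S (s i), ty l = false → 1 ≤ (Q p i).1 l) → s = p.1) ∧
      (∀ p : (Fin g → W) × (Fin g → Box ty (LU - r) LV), ∀ i, ∀ l ∈ S (p.1 i),
        (ty l = true → 1 ≤ (R p i).1 l) ∧ (ty l = false → 1 ≤ (Q p i).1 l)) := by
  set Gs : W → Finset (Box ty (LU - r) LV) := fun s => univ.filter fun δ : Box ty (LU - r) LV =>
    Gd ty S true s δ.1 ∧ Gd ty S false s δ.1 with hGs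
  have hHU' : HU * (LU - r : ℕ) ≤ nU ty + (LU - r : ℕ) - 1 := by
    rw [Nat.cast_sub hr]
    have h1 : (0 : ℝ) ≤ (HU - 1) * r := mul_nonneg (by linarith) (Nat.cast_nonneg _)
    nlinarith
  have hgood : ∀ s, (Fintype.card (Box ty (LU - r) LV) : ℝ) / 2 ≤ ((Gs s).card : ℝ) := fun s =>
    card_good ty S (LU - r) LV s hHU hHV hHU' hV hsU hsV
  set P : Finset ((Fin g → W) × (Fin g → Box ty (LU - r) LV)) :=
    univ.filter fun p => ∀ i, p.2 i ∈ Gs (p.1 i) with hP
  have hPm : ∀ p ∈ P, ∀ i, Gd ty S true (p.1 i) (p.2 i).1 ∧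
      Gd ty S false (p.1 i) (p.2 i).1 := by
    intro p hp
    have h2 := (mem_filter.1 hp).2
    exact fun i => (mem_filter.1 (h2 i)).2
  refine ⟨P, fun p i => ⟨plus ty S true (p.1 i) (p.2 i).1, ?_, ?_⟩,
    fun p i => ⟨plus ty S false (p.1 i) (p.2 i).1, ?_, ?_⟩, ?_, ?_, ?_, ?_, ?_, ?_⟩
  · rw [(plus_sum ty S true _ _).1, if_pos rfl, (p.2 i).2.1, hcU]
    omega
  · rw [(plus_sum ty S true _ _).2, if_neg (by simp), (p.2 i).2.2, add_zero]
  · rw [(plus_sum ty S false _ _).1, if_neg (by simp), (p.2 i).2.1, add_zero]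
  · rw [(plus_sum ty S false _ _).2, if_pos rfl, (p.2 i).2.2, hcV]
  · have h1 : P.card = ∑ s : Fin g → W, ∏ i, (Gs (s i)).card := by
      rw [hP, card_filter, Fintype.sum_prod_type]
      refine sum_congr rfl fun s _ => ?_
      rw [← Fintype.card_piFinset, ← card_filter]
      congr 1
      ext δ
      simp only [mem_filter, mem_univ, true_and, Fintype.mem_piFinset]
    rw [h1, ← card_univ]
    push_cast
    rw [← nsmul_eq_mul, ← sum_const]
    refine sum_le_sum fun s _ => ?_
    have h3 : (((nU ty).multichoose (LU - r) * (nV ty).multichoose LV : ℕ) / 2 : ℝ) ^ g =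
        ∏ _i : Fin g, ((Fintype.card (Box ty (LU - r) LV) : ℝ) / 2) := by
      rw [prod_const, card_univ, Fintype.card_fin, card_box]
    push_cast at h3
    rw [h3]
    exact prod_le_prod (fun i _ => by positivity) fun i _ => hgood (s i)
  · intro p hp p' hp' s hadm hgap
    have hg := fun (i : Fin g) (l : L) => (gap_apply (cty ty g) _ _ (i, l)).symm.trans
      ((DFunLike.congr_fun hgap (i, l)).trans (cmon_ap S s i l))
    have ha := fun (i : Fin g) (l : L) => hadm (i, l)
    simp only [cty, glu, plus] at hg ha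
    have hs1 : ∀ i, s i = p.1 i := by
      intro i
      by_contra hne
      obtain ⟨l, h1, h2, h3, h4⟩ := (hPm p hp i).1 (s i) hne
      have h5 := hg i l
      rw [if_pos h2, if_pos h1, h4, if_neg fun h6 => h3 h6.1] at h5
      omega
    have hs2 : ∀ i, s i = p'.1 i := by
      intro i
      by_contra hne
      obtain ⟨l, h1, h2, h3, h4⟩ := (hPm p' hp' i).2 (s i) hne
      have h5 := hg i l
      have h2' : ¬ ty l = true := by rw [h2]; simp
      rw [if_neg h2', if_pos h1, h4, if_neg fun h6 => h3 h6.1] at h5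
      omega
    apply Prod.ext
    · funext i
      rw [← hs1 i, hs2 i]
    · funext i
      apply Subtype.ext
      funext l
      have h5 := hg i l
      have h6 := ha i l
      rw [← hs1 i, ← hs2 i] at h5 h6
      have n1 : (true = false) = False := by simp
      have n2 : (false = true) = False := by simp
      cases h7 : ty l <;> by_cases h9 : l ∈ S (s i) <;>
        simp only [h7, h9, n1, n2, if_true, if_false, and_true, and_false, true_and, false_and]
          at h5 h6 <;> omega
  · intro p _
    have n1 : (true = false) = False := by simp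
    have n2 : (false = true) = False := by simp
    constructor
    · rintro ⟨i, l⟩
      simp only [cty, glu, plus]
      cases h7 : ty l <;> by_cases h9 : l ∈ S (p.1 i) <;>
        simp only [h9, n1, n2, if_true, if_false, and_true, and_false] <;> omega
    · ext ⟨i, l⟩
      rw [gap_apply, cmon_ap]
      simp only [cty, glu, plus]
      cases h7 : ty l <;> by_cases h9 : l ∈ S (p.1 i) <;>
        simp only [h9, n1, n2, if_true, if_false, and_true, and_false] <;> omega
  · intro p hp s hs
    funext i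
    by_contra hne
    obtain ⟨l, h1, h2, h3, h4⟩ := (hPm p hp i).1 (s i) hne
    have h5 := hs i l h1 h2
    simp only [plus] at h5
    rw [h4, if_neg fun h6 => h3 h6.1] at h5
    omega
  · intro p hp s hs
    funext i
    by_contra hne
    obtain ⟨l, h1, h2, h3, h4⟩ := (hPm p hp i).2 (s i) hne
    have h5 := hs i l h1 h2
    simp only [plus] at h5
    rw [h4, if_neg fun h6 => h3 h6.1] at h5
    omega
  · intro p i l hl
    refine ⟨fun h => ?_, fun h => ?_⟩
    · simp only [plus]
      rw [if_pos ⟨hl, h⟩]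
      omega
    · simp only [plus]
      rw [if_pos ⟨hl, h⟩]
      omega

end Pool.XDE
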